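import Pool.Agent.Zk39.DN.Null

/-!
# Skew products with injective maps of regular curves are null relative to the base
-/

set_option autoImplicit false

open Set Topology

namespace Pool.Agent.Zk39.DN

/-- **Regular curves**: compact connected Hausdorff spaces with a base of open sets with finite frontiers. -/
def RegularCurve (Z : Type) [TopologicalSpace Z] : Prop :=
  CompactSpace Z ∧ T2Space Z ∧ ConnectedSpace Z ∧
    ∀ z : Z, ∀ U ∈ 𝓝 z, ∃ V : Set Z, IsOpen V ∧ z ∈ V ∧ V ⊆ U ∧ (frontier V).Finite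

/-- the closures of the components of an open set meet its complement -/
theorem bump_open {Z : Type} [TopologicalSpace Z] [CompactSpace Z] [T2Space Z] [PreconnectedSpace Z] {D : Set Z}
    (hD : IsClosed D) (hne : D.Nonempty) {z : Z} (hz : z ∉ D) :
    ∃ b ∈ D, b ∈ closure (connectedComponentIn Dᶜ z) := by
  by_contra hcon
  push Not at hcon
  set W := connectedComponentIn Dᶜ z with hW
  have hzW : z ∈ W := mem_connectedComponentIn hz
  have h1 : closure W ⊆ W := isPreconnected_connectedComponentIn.closure.subset_connectedComponentIn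
    (subset_closure hzW) (fun b hb hbD => hcon b hbD hb)
  have hWc : IsClosed W := closure_subset_iff_isClosed.1 h1
  have hdis : Disjoint D W := disjoint_left.2 fun b hb hb' => connectedComponentIn_subset _ _ hb' hb
  obtain ⟨O, O', hO, hO', hDO, hWO', hOO'⟩ := normal_separation hD hWc hdis
  have hclO : ∀ w ∈ W, w ∉ closure O := by
    intro w hw hw'
    have h2 : closure O ⊆ O'ᶜ := closure_minimal (fun y hy hy' => disjoint_left.1 hOO' hy hy') hO'.isClosed_compl
    exact h2 hw' (hWO' hw)
  have hWN : W ⊆ Oᶜ := fun w hw hw' => hclO w hw (subset_closure hw')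
  obtain ⟨b, hb1, hb2⟩ := bump (P := univ) isClosed_univ isPreconnected_univ hO.isClosed_compl (N := Oᶜ)
    (fun h => by
      obtain ⟨y, hy⟩ := hne
      exact h (mem_univ y) (hDO hy)) (x := z) ⟨mem_univ z, hWN hzW⟩
  rw [univ_inter] at hb2
  have h3 : b ∈ Oᶜ := by
    by_contra h
    rw [connectedComponentIn_eq_empty h] at hb2
    exact hb2
  have h4 : connectedComponentIn Oᶜ b ⊆ W := by
    refine isPreconnected_connectedComponentIn.subset_connectedComponentIn hb2
      ((connectedComponentIn_subset _ _).trans fun y hy hy' => hy (hDO hy'))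
  have h5 : b ∈ W := h4 (mem_connectedComponentIn h3)
  rw [frontier_compl] at hb1
  exact hclO b h5 (frontier_subset_closure hb1)

/-- small open sets with finite frontiers -/
theorem small_cover_rim {Y Z : Type} [TopologicalSpace Y] [CompactSpace Y] [TopologicalSpace Z] [CompactSpace Z]
    (hr : ∀ z : Z, ∀ U ∈ 𝓝 z, ∃ V : Set Z, IsOpen V ∧ z ∈ V ∧ V ⊆ U ∧ (frontier V).Finite) (g : C(Z × Y, ℝ))
    {ε : ℝ} (hε : 0 < ε) : ∃ (n : ℕ) (C : Fin n → Set Z), (∀ s, IsOpen (C s) ∧ (frontier (C s)).Finite) ∧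
      (∀ z, ∃ s, z ∈ C s) ∧ ∀ s y, ∀ z ∈ closure (C s), ∀ z' ∈ closure (C s), |g (z, y) - g (z', y)| ≤ ε := by
  classical
  set G : C(Z, C(Y, ℝ)) := g.curry with hG
  have hGv : ∀ z y, G z y = g (z, y) := fun z y => rfl
  choose V hV1 hV2 hV3 hV4 using fun z => hr z (G ⁻¹' Metric.ball (G z) (ε / 2))
    ((Metric.isOpen_ball.preimage G.continuous).mem_nhds (Metric.mem_ball_self (by positivity)))
  obtain ⟨t, -, ht⟩ := isCompact_univ.elim_nhds_subcover V fun z _ => (hV1 z).mem_nhds (hV2 z)
  have hcl : ∀ z, ∀ w ∈ closure (V z), dist (G w) (G z) ≤ ε / 2 := by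
    intro z w hw
    have h1 : closure (V z) ⊆ G ⁻¹' Metric.closedBall (G z) (ε / 2) :=
      closure_minimal ((hV3 z).trans (preimage_mono Metric.ball_subset_closedBall))
        (Metric.isClosed_closedBall.preimage G.continuous)
    exact h1 hw
  refine ⟨t.card, fun s => V (t.equivFin.symm s : Z), fun s => ⟨hV1 _, hV4 _⟩, fun z => ?_, fun s y z hz z' hz' => ?_⟩
  · obtain ⟨p, hp1, hp2⟩ := mem_iUnion₂.1 (ht (mem_univ z))
    exact ⟨t.equivFin ⟨p, hp1⟩, by simpa using hp2⟩
  · have h1 := hcl _ z hz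
    have h2 := hcl _ z' hz'
    have h3 : dist (G z) (G z') ≤ ε := (dist_triangle_right _ _ (G (t.equivFin.symm s : Z))).trans (by linarith)
    have h4 := (ContinuousMap.dist_apply_le_dist y : dist (G z y) (G z' y) ≤ dist (G z) (G z'))
    rw [Real.dist_eq, hGv, hGv] at h4
    linarith

/-- **Orbits of points are shadowed by few orbits.** -/
theorem shadow {Z : Type} [TopologicalSpace Z] [CompactSpace Z] [T2Space Z] [ConnectedSpace Z] {n k : ℕ}
    {C : Fin n → Set Z} (hC : ∀ s, IsOpen (C s) ∧ (frontier (C s)).Finite) (hcov : ∀ z, ∃ s, z ∈ C s)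
    {F : Fin k → Z → Z} (hF1 : ∀ i, Continuous (F i)) (hF2 : ∀ i, Function.Injective (F i)) :
    ∃ B : Finset Z, B.card ≤ 1 + k * ∑ s, (frontier (C s)).ncard ∧
      ∀ z, ∃ b ∈ B, ∀ i, ∃ s, F i z ∈ closure (C s) ∧ F i b ∈ closure (C s) := by
  classical
  have hfin : ∀ p : Fin k × Fin n, (F p.1 ⁻¹' frontier (C p.2)).Finite := fun p =>
    (hC p.2).2.preimage ((hF2 p.1).injOn)
  obtain ⟨z0⟩ := (inferInstance : Nonempty Z)
  set D : Finset Z := (Finset.univ : Finset (Fin k × Fin n)).biUnion fun p => (hfin p).toFinset with hD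
  have hDmem : ∀ z, z ∈ D ↔ ∃ i s, F i z ∈ frontier (C s) := by
    intro z
    rw [hD, Finset.mem_biUnion]
    constructor
    · rintro ⟨p, -, hp⟩
      rw [Set.Finite.mem_toFinset] at hp
      exact ⟨p.1, p.2, hp⟩
    · rintro ⟨i, s, h⟩
      exact ⟨(i, s), Finset.mem_univ _, by rw [Set.Finite.mem_toFinset]; exact h⟩
  refine ⟨insert z0 D, ?_, fun z => ?_⟩
  · refine (Finset.card_insert_le _ _).trans ?_
    have h1 : D.card ≤ k * ∑ s, (frontier (C s)).ncard := by
      rw [hD]
      refine Finset.card_biUnion_le.trans ?_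
      have h2 : ∀ p : Fin k × Fin n, (hfin p).toFinset.card ≤ (frontier (C p.2)).ncard := by
        intro p
        rw [← Set.ncard_eq_toFinset_card _ (hfin p)]
        exact Set.ncard_le_ncard_of_injOn (F p.1) (fun z hz => hz) ((hF2 p.1).injOn) (hC p.2).2
      refine (Finset.sum_le_sum fun p _ => h2 p).trans (le_of_eq ?_)
      rw [Fintype.sum_prod_type]
      simp only [Finset.sum_const, Finset.card_univ, Fintype.card_fin, smul_eq_mul]
    omega
  · choose s hs using fun i => hcov (F i z)
    by_cases hzD : z ∈ D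
    · exact ⟨z, Finset.mem_insert_of_mem hzD, fun i => ⟨s i, subset_closure (hs i), subset_closure (hs i)⟩⟩
    · -- the component of `z`
      have hW : ∀ i, connectedComponentIn ((D : Set Z)ᶜ) z ⊆ F i ⁻¹' C (s i) := by
        intro i
        have h1 := isPreconnected_iff_subset_of_disjoint.1
          (isPreconnected_connectedComponentIn (F := (D : Set Z)ᶜ) (x := z)) (F i ⁻¹' C (s i))
          (F i ⁻¹' (closure (C (s i)))ᶜ) ((hC (s i)).1.preimage (hF1 i)) (isClosed_closure.isOpen_compl.preimage (hF1 i))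
          (by
            intro w hw
            by_cases h2 : F i w ∈ C (s i)
            · exact Or.inl h2
            · right
              intro h3
              apply connectedComponentIn_subset _ _ hw
              rw [Finset.mem_coe, hDmem]
              exact ⟨i, s i, by rw [(hC (s i)).1.frontier_eq]; exact ⟨h3, h2⟩⟩)
          (by
            rw [eq_empty_iff_forall_notMem]
            rintro w ⟨-, h2, h3⟩
            exact h3 (subset_closure h2))
        rcases h1 with h1 | h1
        · exact h1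
        · exact absurd (subset_closure (hs i)) (h1 (mem_connectedComponentIn (by simpa using hzD)))
      rcases (D : Set Z).eq_empty_or_nonempty with h0 | h0
      · refine ⟨z0, Finset.mem_insert_self _ _, fun i => ⟨s i, subset_closure (hs i), subset_closure ?_⟩⟩
        have h2 : z0 ∈ connectedComponentIn ((D : Set Z)ᶜ) z := by
          rw [h0, compl_empty, connectedComponentIn_univ, PreconnectedSpace.connectedComponent_eq_univ]
          exact mem_univ _
        exact hW i h2
      · obtain ⟨b, hb1, hb2⟩ := bump_open (D.finite_toSet.isClosed) h0 (z := z) (by simpa using hzD)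
        refine ⟨b, Finset.mem_insert_of_mem (by simpa using hb1), fun i => ⟨s i, subset_closure (hs i), ?_⟩⟩
        have h2 : closure (connectedComponentIn ((D : Set Z)ᶜ) z) ⊆ F i ⁻¹' closure (C (s i)) :=
          closure_minimal ((hW i).trans (preimage_mono subset_closure)) (isClosed_closure.preimage (hF1 i))
        exact h2 hb2

/-- iterates on a fibre -/
theorem fibre_iter_inj {Y Z : Type} [TopologicalSpace Z] {S : Y → Y} {f : Y → Z → Z}
    (hf : ∀ y, Continuous (f y)) (hinj : ∀ y, Function.Injective (f y)) (y : Y) (m : ℕ) :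
    ∃ F : Z → Z, Continuous F ∧ Function.Injective F ∧
      ∀ z, (fun x : Y × Z => (S x.1, f x.1 x.2))^[m] (y, z) = (S^[m] y, F z) := by
  induction m with
  | zero => exact ⟨id, continuous_id, Function.injective_id, fun z => rfl⟩
  | succ m ih =>
    obtain ⟨F, h1, h2, h3⟩ := ih
    refine ⟨f (S^[m] y) ∘ F, (hf _).comp h1, (hinj _).comp h2, fun z => ?_⟩
    rw [Function.iterate_succ_apply', h3, Function.iterate_succ_apply']
    rfl

/-- **Nullness.** -/
theorem null_rim {Y Z : Type} [TopologicalSpace Y] [CompactSpace Y] [T2Space Y] [TopologicalSpace Z]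
    (hZ : RegularCurve Z) (S : Y → Y) (f : Y → Z → Z) (hf : ∀ y, Continuous (f y))
    (hinj : ∀ y, Function.Injective (f y)) (A B : Set (Y × Z)) (hA : IsClosed A)
    (hB : IsClosed B) (hAB : Disjoint A B) : ∃ d : ℕ, ∀ (y : Y) (m : Fin d → ℕ), ∃ τ : Fin d → Bool,
      ∀ x : Y × Z, x.1 = y → ∃ i, (fun x : Y × Z => (S x.1, f x.1 x.2))^[m i] x ∉ (if τ i then A else B) := by
  classical
  obtain ⟨i1, i2, i3, hr⟩ := hZ
  obtain ⟨g, hg0, hg1, -⟩ := exists_continuous_zero_one_of_isClosed hA hB hAB
  set g' : C(Z × Y, ℝ) := ⟨fun x => g (x.2, x.1), g.continuous.comp (continuous_snd.prodMk continuous_fst)⟩ with hg'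
  obtain ⟨n, C, hC1, hC2, hC3⟩ := small_cover_rim hr g' (show (0 : ℝ) < 1 / 3 by norm_num)
  obtain ⟨R, hR⟩ : ∃ R : ℕ, R = ∑ s, (frontier (C s)).ncard := ⟨_, rfl⟩
  obtain ⟨d, hd⟩ : ∃ d : ℕ, 1 + d * R < 2 ^ d := by
    have h1 : Filter.Tendsto (fun d : ℕ => ((d : ℝ) ^ 1 / (2 : ℝ) ^ d)) Filter.atTop (𝓝 0) :=
      tendsto_pow_const_div_const_pow_of_one_lt 1 (by norm_num)
    have h2 := h1.eventually_lt_const (show (0 : ℝ) < 1 / (1 + R) by positivity)
    obtain ⟨d, hd1, hd2⟩ := (h2.and (Filter.eventually_ge_atTop 1)).exists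
    refine ⟨d, ?_⟩
    rw [pow_one, div_lt_div_iff₀ (by positivity) (by positivity), one_mul] at hd1
    have hd1' : d * (1 + R) < 2 ^ d := by exact_mod_cast hd1
    nlinarith [hd1', hd2]
  refine ⟨d, fun y m => ?_⟩
  by_contra hcon
  push Not at hcon
  choose x hxy hx using hcon
  choose F hF1 hF2 hF3 using fun i => fibre_iter_inj (S := S) hf hinj y (m i)
  obtain ⟨D, hD1, hD2⟩ := shadow hC1 hC2 hF1 hF2
  choose b hb1 hb2 using fun τ => hD2 (x τ).2
  have hval : ∀ τ i, (τ i = true → g' (F i (x τ).2, S^[m i] y) = 0) ∧ (τ i = false → g' (F i (x τ).2, S^[m i] y) = 1) := by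
    intro τ i
    have h1 := hx τ i
    have h2 : x τ = (y, (x τ).2) := Prod.ext (hxy τ) rfl
    rw [h2, hF3 i] at h1
    constructor
    · intro h
      rw [h] at h1
      exact hg0 h1
    · intro h
      rw [h] at h1
      exact hg1 h1
  have hnear : ∀ τ i, |g' (F i (x τ).2, S^[m i] y) - g' (F i (b τ), S^[m i] y)| ≤ 1 / 3 := by
    intro τ i
    obtain ⟨s, hs1, hs2⟩ := hb2 τ i
    exact hC3 s _ _ hs1 _ hs2
  have hbinj : Function.Injective b := by
    have key : ∀ τ τ', b τ = b τ' → ∀ i, τ i = true → τ' i = false → False := by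
      intro τ τ' hbb i h1 h2
      have h3 := hnear τ i
      have h4 := hnear τ' i
      rw [(hval τ i).1 h1] at h3
      rw [(hval τ' i).2 h2, ← hbb] at h4
      have h5 := (abs_le.1 h3).1
      have h6 := (abs_le.1 h4).2
      linarith
    intro τ τ' hbb
    funext i
    cases h1 : τ i
    · cases h2 : τ' i
      · rfl
      · exact absurd (key τ' τ hbb.symm i h2 h1) not_false
    · cases h2 : τ' i
      · exact absurd (key τ τ' hbb i h1 h2) not_false
      · rfl
  have h1 : (Finset.univ.image b).card = 2 ^ d := by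
    rw [Finset.card_image_of_injective _ hbinj, Finset.card_univ, Fintype.card_fun, Fintype.card_bool, Fintype.card_fin]
  have h2 : (Finset.univ.image b).card ≤ D.card := Finset.card_le_card fun c hc => by
    obtain ⟨τ, -, rfl⟩ := Finset.mem_image.1 hc
    exact hb1 τ
  rw [← hR] at hD1
  omega

end Pool.Agent.Zk39.DN
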