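import Pool.Agent.Zk39.DN.Top

/-!
# Patterns in local dendrites
-/

set_option autoImplicit false

open Set Topology

namespace Pool.Agent.Zk39.DN

/-- boundary bumping -/
theorem bump {Z : Type} [TopologicalSpace Z] [CompactSpace Z] [T2Space Z] {P N : Set Z} (hP : IsClosed P)
    (hPc : IsPreconnected P) (hN : IsClosed N) (hPN : ¬ P ⊆ N) {x : Z} (hx : x ∈ P ∩ N) :
    ∃ b ∈ frontier N, x ∈ connectedComponentIn (P ∩ N) b := by
  classical
  by_contra hcon
  push Not at hcon
  have hQ : IsClosed (P ∩ N) := hP.inter hN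
  have : CompactSpace ↥(P ∩ N) := isCompact_iff_compactSpace.1 hQ.isCompact
  set F : Set ↥(P ∩ N) := {q | (q : Z) ∈ frontier N} with hF
  have hFc : IsCompact F := (isClosed_frontier.preimage continuous_subtype_val).isCompact
  set x' : ↥(P ∩ N) := ⟨x, hx⟩ with hx'
  have h1 : ∀ q ∈ F, ∃ V : Set ↥(P ∩ N), IsClopen V ∧ x' ∈ V ∧ q ∉ V := by
    intro q hq
    have h2 : q ∉ connectedComponent x' := by
      intro h3
      apply hcon q hq
      have h4 : (q : Z) ∈ connectedComponentIn (P ∩ N) x := by
        rw [connectedComponentIn_eq_image hx]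
        exact ⟨q, h3, rfl⟩
      rw [← connectedComponentIn_eq h4]
      exact mem_connectedComponentIn hx
    rw [connectedComponent_eq_iInter_isClopen] at h2
    simp only [mem_iInter, not_forall] at h2
    obtain ⟨V, hV⟩ := h2
    exact ⟨V.1, V.2.1, V.2.2, hV⟩
  choose! V hV using h1
  obtain ⟨t, ht1, ht2⟩ := hFc.elim_nhds_subcover (fun q => (V q)ᶜ) fun q hq =>
    ((hV q hq).1.compl.isOpen).mem_nhds (hV q hq).2.2
  set W : Set ↥(P ∩ N) := ⋂ q ∈ t, V q with hW
  have hWc : IsClopen W := by
    rw [hW]
    exact t.finite_toSet.isClopen_biInter fun q hq => (hV q (ht1 q hq)).1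
  have hxW : x' ∈ W := by
    rw [hW]
    exact mem_iInter₂.2 fun q hq => (hV q (ht1 q hq)).2.1
  have hWF : ∀ q ∈ W, (q : Z) ∉ frontier N := by
    intro q hq hqF
    obtain ⟨p, hp1, hp2⟩ := mem_iUnion₂.1 (ht2 (show q ∈ F from hqF))
    exact hp2 (mem_iInter₂.1 hq p hp1)
  obtain ⟨O, hO1, hO2⟩ := isOpen_induced_iff.1 hWc.isOpen
  have hW' : IsClosed ((Subtype.val : ↥(P ∩ N) → Z) '' W) :=
    hQ.isClosedEmbedding_subtypeVal.isClosedMap _ hWc.isClosed
  have hint : ∀ q ∈ W, (q : Z) ∈ interior N := by
    intro q hq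
    by_contra h2
    exact hWF q hq ⟨subset_closure q.2.2, h2⟩
  have h2 := isPreconnected_iff_subset_of_disjoint.1 hPc (O ∩ interior N) ((Subtype.val : ↥(P ∩ N) → Z) '' W)ᶜ
    (hO1.inter isOpen_interior) hW'.isOpen_compl (by
      intro z hz
      by_cases hzW : z ∈ ((Subtype.val : ↥(P ∩ N) → Z) '' W)
      · left
        obtain ⟨q, hq, rfl⟩ := hzW
        refine ⟨?_, hint q hq⟩
        rw [← hO2] at hq
        exact hq
      · exact Or.inr hzW) (by
      rw [eq_empty_iff_forall_notMem]
      rintro z ⟨hz, ⟨hzO, hzN⟩, hzW⟩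
      apply hzW
      refine ⟨⟨z, hz, interior_subset hzN⟩, ?_, rfl⟩
      rw [← hO2]
      exact hzO)
  rcases h2 with h2 | h2
  · exact hPN fun z hz => interior_subset (h2 hz).2
  · exact h2 hx.1 ⟨x', hxW, rfl⟩

theorem closed_component {Z : Type} [TopologicalSpace Z] {F : Set Z} (hF : IsClosed F) (b : Z) :
    IsClosed (connectedComponentIn F b) := by
  by_cases hb : b ∈ F
  · refine closure_subset_iff_isClosed.1 ?_
    exact isPreconnected_connectedComponentIn.closure.subset_connectedComponentIn
      (subset_closure (mem_connectedComponentIn hb)) (closure_minimal (connectedComponentIn_subset _ _) hF)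
  · rw [connectedComponentIn_eq_empty hb]
    exact isClosed_empty

open Classical in
/-- the pieces of `P ∩ N` -/
noncomputable def piece {Z : Type} [TopologicalSpace Z] (P N : Set Z) (o : Option ↥(frontier N)) : Set Z :=
  match o with
  | none => if P ⊆ N then P else ∅
  | some b => connectedComponentIn (P ∩ N) b

theorem piece_subset {Z : Type} [TopologicalSpace Z] (P N : Set Z) (o : Option ↥(frontier N)) :
    piece P N o ⊆ P ∩ N := by
  classical
  unfold piece
  match o with
  | none =>
    simp only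
    split_ifs with h
    · exact fun z hz => ⟨hz, h hz⟩
    · exact empty_subset _
  | some b => exact connectedComponentIn_subset _ _

theorem piece_closed {Z : Type} [TopologicalSpace Z] {P N : Set Z} (hP : IsClosed P) (hN : IsClosed N)
    (o : Option ↥(frontier N)) : IsClosed (piece P N o) := by
  classical
  unfold piece
  match o with
  | none =>
    simp only
    split_ifs with h
    · exact hP
    · exact isClosed_empty
  | some b => exact closed_component (hP.inter hN) _

theorem piece_preconnected {Z : Type} [TopologicalSpace Z] {P N : Set Z} (hP : IsPreconnected P)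
    (o : Option ↥(frontier N)) : IsPreconnected (piece P N o) := by
  classical
  unfold piece
  match o with
  | none =>
    simp only
    split_ifs with h
    · exact hP
    · exact isPreconnected_empty
  | some b => exact isPreconnected_connectedComponentIn

theorem piece_cover {Z : Type} [TopologicalSpace Z] [CompactSpace Z] [T2Space Z] {P N : Set Z} (hP : IsClosed P)
    (hPc : IsPreconnected P) (hN : IsClosed N) {x : Z} (hx : x ∈ P ∩ N) : ∃ o, x ∈ piece P N o := by
  classical
  by_cases h : P ⊆ N
  · refine ⟨none, ?_⟩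
    unfold piece
    rw [if_pos h]
    exact hx.1
  · obtain ⟨b, hb, hxb⟩ := bump hP hPc hN h hx
    exact ⟨some ⟨b, hb⟩, hxb⟩

open Classical in
/-- **Patterns in a local dendrite.** -/
theorem pattern_local {Z : Type} [TopologicalSpace Z] (hZ : LocalDendrite Z) (n : ℕ) : ∃ d : ℕ,
    ∀ (P : Fin d → Fin n → Set Z), (∀ i s, IsClosed (P i s)) → (∀ i s, IsPreconnected (P i s)) →
    ∀ (K : Fin d → Fin n → Bool → Prop), (∀ i s t, K i s true → K i t false → Disjoint (P i s) (P i t)) →
    ∀ x : (Fin d → Bool) → Z, ¬ ∀ τ i, ∃ s, x τ ∈ P i s ∧ K i s (τ i) := by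
  obtain ⟨i1, i2, i3, m, N, hN, hcov⟩ := hZ
  have : ∀ j, Fintype ↥(frontier (N j)) := fun j => (hN j).2.1.fintype
  obtain ⟨R, hR⟩ : ∃ R : ℕ, ∀ j, Fintype.card (Fin n × Option ↥(frontier (N j))) ≤ R :=
    ⟨Finset.univ.sup fun j => Fintype.card (Fin n × Option ↥(frontier (N j))), fun j =>
      Finset.le_sup (f := fun j => Fintype.card (Fin n × Option ↥(frontier (N j)))) (Finset.mem_univ j)⟩
  obtain ⟨d, hd⟩ : ∃ d : ℕ, m * (1 + d * (R * R)) < 2 ^ d := by
    have h1 : Filter.Tendsto (fun d : ℕ => ((d : ℝ) ^ 1 / (2 : ℝ) ^ d)) Filter.atTop (𝓝 0) :=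
      tendsto_pow_const_div_const_pow_of_one_lt 1 (by norm_num)
    have h2 := h1.eventually_lt_const (show (0 : ℝ) < 1 / (2 * (m + 1) * (1 + R * R)) by positivity)
    obtain ⟨d, hd1, hd2⟩ := (h2.and (Filter.eventually_ge_atTop 1)).exists
    refine ⟨d, ?_⟩
    rw [pow_one, div_lt_div_iff₀ (by positivity) (by positivity), one_mul] at hd1
    have hd1' : d * (2 * (m + 1) * (1 + R * R)) < 2 ^ d := by exact_mod_cast hd1
    refine lt_of_le_of_lt ?_ hd1'
    nlinarith [Nat.zero_le (m * (R * R)), Nat.zero_le (d * (R * R)), Nat.zero_le (m * d * (R * R)), Nat.zero_le (m * d),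
      Nat.mul_le_mul_left m hd2]
  refine ⟨d, fun P hP1 hP2 K hK x hx => ?_⟩
  choose J hJ using fun z : Z => mem_iUnion.1 (by rw [hcov]; exact mem_univ z : z ∈ ⋃ j, N j)
  have hcount : ∀ j, ((Finset.univ : Finset (Fin d → Bool)).filter fun τ => J (x τ) = j).card ≤ 1 + d * (R * R) := by
    intro j
    obtain ⟨g1, g2, g3⟩ := hN j
    by_cases hne : (Nonempty ↥(N j))
    · have h1 := pattern_dendrite g3 (Q := Fin n × Option ↥(frontier (N j)))
        (fun i s => (Subtype.val : ↥(N j) → Z) ⁻¹' (piece (P i s.1) (N j) s.2))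
        (fun i s => (piece_closed (hP1 i s.1) g1 s.2).preimage continuous_subtype_val)
        (fun i s => by
          rw [← IsInducing.subtypeVal.isPreconnected_image, Subtype.image_preimage_coe,
            inter_eq_right.2 ((piece_subset _ _ _).trans inter_subset_right)]
          exact piece_preconnected (hP2 i s.1) s.2)
        (fun i s b => K i s.1 b)
        (fun i s t hs ht => by
          have := hK i s.1 t.1 hs ht
          exact disjoint_left.2 fun z hz hz' => disjoint_left.1 this (piece_subset _ _ _ hz).1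
            (piece_subset _ _ _ hz').1)
        ((Finset.univ : Finset (Fin d → Bool)).filter fun τ => J (x τ) = j)
        (fun τ => if h : x τ ∈ N j then ⟨x τ, h⟩ else hne.some)
        (fun τ hτ i => by
          have h2 : J (x τ) = j := (Finset.mem_filter.1 hτ).2
          have h3 : x τ ∈ N j := h2 ▸ hJ (x τ)
          obtain ⟨s, hs1, hs2⟩ := hx τ i
          obtain ⟨o, ho⟩ := piece_cover (hP1 i s) (hP2 i s) g1 ⟨hs1, h3⟩
          refine ⟨(s, o), ?_, hs2⟩
          rw [dif_pos h3]
          exact ho)
      refine h1.trans ?_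
      have h4 := hR j
      gcongr
    · have h1 : ((Finset.univ : Finset (Fin d → Bool)).filter fun τ => J (x τ) = j) = ∅ := by
        rw [Finset.filter_eq_empty_iff]
        intro τ _ h2
        exact hne ⟨⟨x τ, h2 ▸ hJ (x τ)⟩⟩
      rw [h1, Finset.card_empty]
      exact Nat.zero_le _
  have h1 : (Finset.univ : Finset (Fin d → Bool)).card ≤ m * (1 + d * (R * R)) := by
    rw [Finset.card_eq_sum_card_fiberwise (f := fun τ => J (x τ)) (t := Finset.univ) (fun τ _ => Finset.mem_univ _)]
    refine (Finset.sum_le_sum fun j _ => hcount j).trans ?_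
    rw [Finset.sum_const, Finset.card_univ, Fintype.card_fin, smul_eq_mul]
  rw [Finset.card_univ, Fintype.card_fun, Fintype.card_bool, Fintype.card_fin] at h1
  omega

end Pool.Agent.Zk39.DN
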