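import Pool.Agent.Zk39.DN.Local

/-!
# Skew products with monotone maps of local dendrites are null relative to the base
-/

set_option autoImplicit false

open Set Topology

namespace Pool.Agent.Zk39.DN

/-- small closed connected sets -/
theorem small_cover {Y Z : Type} [TopologicalSpace Y] [CompactSpace Y] [TopologicalSpace Z] [CompactSpace Z] [T2Space Z]
    [LocallyConnectedSpace Z] (g : C(Z × Y, ℝ)) {ε : ℝ} (hε : 0 < ε) : ∃ (n : ℕ) (C : Fin n → Set Z),
      (∀ s, IsClosed (C s) ∧ IsPreconnected (C s)) ∧ (∀ z, ∃ s, z ∈ C s) ∧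
      ∀ s y, ∀ z ∈ C s, ∀ z' ∈ C s, |g (z, y) - g (z', y)| ≤ ε := by
  classical
  set G : C(Z, C(Y, ℝ)) := g.curry with hG
  have hGv : ∀ z y, G z y = g (z, y) := fun z y => rfl
  set V : Z → Set Z := fun z => connectedComponentIn (G ⁻¹' Metric.ball (G z) (ε / 2)) z with hV
  have hVo : ∀ z, IsOpen (G ⁻¹' Metric.ball (G z) (ε / 2)) := fun z => Metric.isOpen_ball.preimage G.continuous
  have hVn : ∀ z, V z ∈ 𝓝 z := fun z => ((hVo z).connectedComponentIn).mem_nhds
    (mem_connectedComponentIn (Metric.mem_ball_self (by positivity)))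
  obtain ⟨t, -, ht⟩ := isCompact_univ.elim_nhds_subcover V fun z _ => hVn z
  have hcl : ∀ z, ∀ w ∈ closure (V z), dist (G w) (G z) ≤ ε / 2 := by
    intro z w hw
    have h1 : closure (V z) ⊆ G ⁻¹' Metric.closedBall (G z) (ε / 2) :=
      closure_minimal ((connectedComponentIn_subset _ _).trans (preimage_mono Metric.ball_subset_closedBall))
        (Metric.isClosed_closedBall.preimage G.continuous)
    exact h1 hw
  refine ⟨t.card, fun s => closure (V (t.equivFin.symm s : Z)), fun s => ⟨isClosed_closure,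
    isPreconnected_connectedComponentIn.closure⟩, fun z => ?_, fun s y z hz z' hz' => ?_⟩
  · obtain ⟨p, hp1, hp2⟩ := mem_iUnion₂.1 (ht (mem_univ z))
    exact ⟨t.equivFin ⟨p, hp1⟩, by simpa using subset_closure hp2⟩
  · have h1 := hcl _ z hz
    have h2 := hcl _ z' hz'
    have h3 : dist (G z) (G z') ≤ ε := (dist_triangle_right _ _ (G (t.equivFin.symm s : Z))).trans (by linarith)
    have h4 := (ContinuousMap.dist_apply_le_dist y : dist (G z y) (G z' y) ≤ dist (G z) (G z'))
    rw [Real.dist_eq, hGv, hGv] at h4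
    linarith

/-- iterates on a fibre -/
theorem fibre_iter {Y Z : Type} [TopologicalSpace Y] [TopologicalSpace Z] {S : Y → Y} {f : Y → Z → Z}
    (hf : ∀ y, Continuous (f y)) (hmon : ∀ y D, IsPreconnected D → IsPreconnected (f y ⁻¹' D)) (y : Y) (m : ℕ) :
    ∃ F : Z → Z, Continuous F ∧ (∀ D, IsPreconnected D → IsPreconnected (F ⁻¹' D)) ∧
      ∀ z, (fun x : Y × Z => (S x.1, f x.1 x.2))^[m] (y, z) = (S^[m] y, F z) := by
  induction m with
  | zero => exact ⟨id, continuous_id, fun D hD => hD, fun z => rfl⟩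
  | succ m ih =>
    obtain ⟨F, h1, h2, h3⟩ := ih
    refine ⟨f (S^[m] y) ∘ F, (hf _).comp h1, fun D hD => ?_, fun z => ?_⟩
    · rw [preimage_comp]
      exact h2 _ (hmon _ D hD)
    · rw [Function.iterate_succ_apply', h3, Function.iterate_succ_apply']
      rfl

/-- **Nullness.** -/
theorem null {Y Z : Type} [TopologicalSpace Y] [CompactSpace Y] [T2Space Y] [TopologicalSpace Z]
    (hZ : LocalDendrite Z) (S : Y → Y) (f : Y → Z → Z) (hf : ∀ y, Continuous (f y))
    (hmon : ∀ y D, IsPreconnected D → IsPreconnected (f y ⁻¹' D)) (A B : Set (Y × Z)) (hA : IsClosed A)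
    (hB : IsClosed B) (hAB : Disjoint A B) : ∃ d : ℕ, ∀ (y : Y) (m : Fin d → ℕ), ∃ τ : Fin d → Bool,
      ∀ x : Y × Z, x.1 = y → ∃ i, (fun x : Y × Z => (S x.1, f x.1 x.2))^[m i] x ∉ (if τ i then A else B) := by
  classical
  obtain ⟨i1, i2, i3, -⟩ := id hZ
  obtain ⟨g, hg0, hg1, -⟩ := exists_continuous_zero_one_of_isClosed hA hB hAB
  set g' : C(Z × Y, ℝ) := ⟨fun x => g (x.2, x.1), g.continuous.comp (continuous_snd.prodMk continuous_fst)⟩ with hg'
  obtain ⟨n, C, hC1, hC2, hC3⟩ := small_cover g' (show (0 : ℝ) < 1 / 3 by norm_num)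
  obtain ⟨d, hd⟩ := pattern_local hZ n
  refine ⟨d, fun y m => ?_⟩
  by_contra hcon
  push Not at hcon
  choose x hxy hx using hcon
  choose F hF1 hF2 hF3 using fun i => fibre_iter (S := S) hf hmon y (m i)
  refine hd (fun i s => F i ⁻¹' C s) (fun i s => (hC1 s).1.preimage (hF1 i)) (fun i s => hF2 i _ (hC1 s).2)
    (fun i s b => ∃ z ∈ C s, (S^[m i] y, z) ∈ (if b then A else B)) (fun i s t hs ht => ?_) (fun τ => (x τ).2)
    (fun τ i => ?_)
  · obtain ⟨z, hz, hzA⟩ := hs
    obtain ⟨w, hw, hwB⟩ := ht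
    simp only [if_true, Bool.false_eq_true, if_false] at hzA hwB
    rw [disjoint_left]
    intro p hp hp'
    have h1 := hC3 s (S^[m i] y) z hz _ hp
    have h2 := hC3 t (S^[m i] y) w hw _ hp'
    have h3 : g' (z, S^[m i] y) = 0 := hg0 hzA
    have h4 : g' (w, S^[m i] y) = 1 := hg1 hwB
    rw [h3] at h1
    rw [h4] at h2
    have h5 := (abs_le.1 h1).1
    have h6 := (abs_le.1 h2).2
    linarith
  · obtain ⟨s, hs⟩ := hC2 (F i (x τ).2)
    refine ⟨s, hs, F i (x τ).2, hs, ?_⟩
    have h1 := hx τ i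
    have h2 : x τ = (y, (x τ).2) := Prod.ext (hxy τ) rfl
    rw [h2, hF3 i] at h1
    exact h1

end Pool.Agent.Zk39.DN
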