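import Pool.Agent.Zk39.DN.Null

/-!
# Skew products with fibres in which arcs make sense (linearly or circularly ordered) are null relative to the base
-/

set_option autoImplicit false

open Set Topology

namespace Pool.Agent.Zk39.DN

/-- **Arcs**: the order-convex sets and their complements -/
def Arc {Z : Type} [LinearOrder Z] (C : Set Z) : Prop := OrdConnected C ∨ OrdConnected Cᶜ

open Classical in
/-- patterns for convex sets of a linear order -/
theorem pattern_order {N Q : Type} [LinearOrder N] [Fintype Q] {k : ℕ}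
    (P : Fin k → Q → Set N) (hP : ∀ i s, OrdConnected (P i s))
    (K : Fin k → Q → Bool → Prop) (hK : ∀ i s t, K i s true → K i t false → Disjoint (P i s) (P i t))
    (x : (Fin k → Bool) → N) (hx : ∀ τ i, ∃ s, x τ ∈ P i s ∧ K i s (τ i)) :
    2 ^ k ≤ 1 + k * (Fintype.card Q * Fintype.card Q) := by
  set L : N → Fin k × Q × Q → Prop := fun z p =>
    (if ∀ a ∈ P p.1 p.2.1, ∀ b ∈ P p.1 p.2.2, a < b then ∃ a ∈ P p.1 p.2.1, z ≤ a else ∃ b ∈ P p.1 p.2.2, z ≤ b) with hL
  have hlow : ∀ p, IsLowerSet {z | L z p} := by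
    intro p z w hwz hz
    simp only [hL, mem_ofPred_eq] at hz ⊢
    split_ifs at hz ⊢ with h
    · obtain ⟨a, ha, h1⟩ := hz
      exact ⟨a, ha, hwz.trans h1⟩
    · obtain ⟨a, ha, h1⟩ := hz
      exact ⟨a, ha, hwz.trans h1⟩
  set Z : (Fin k → Bool) → Finset (Fin k × Q × Q) := fun τ => Finset.univ.filter fun p => L (x τ) p with hZ
  have hinj : Function.Injective Z := by
    have key : ∀ τ τ', Z τ = Z τ' → ∀ i, τ i = true → τ' i = false → False := by
      intro τ τ' hZZ i h1 h2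
      obtain ⟨s, hs1, hs2⟩ := hx τ i
      obtain ⟨t, ht1, ht2⟩ := hx τ' i
      rw [h1] at hs2
      rw [h2] at ht2
      have hd := hK i s t hs2 ht2
      have hiff : L (x τ) (i, s, t) ↔ L (x τ') (i, s, t) := by
        have h3 : (i, s, t) ∈ Z τ ↔ (i, s, t) ∈ Z τ' := by rw [hZZ]
        simpa [hZ] using h3
      simp only [hL] at hiff
      split_ifs at hiff with h
      · have h4 := hiff.1 ⟨_, hs1, le_rfl⟩
        obtain ⟨a, ha, h5⟩ := h4
        exact absurd (h a ha _ ht1) (not_lt.2 h5)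
      · have h4 := hiff.2 ⟨_, ht1, le_rfl⟩
        obtain ⟨b, hb, h5⟩ := h4
        apply h
        intro a ha b' hb'
        by_contra h6
        rw [not_lt] at h6
        -- `b' ≤ a` and `x τ ≤ b`
        have hne : ∀ a ∈ P i s, ∀ b ∈ P i t, a ≠ b := fun a ha b hb hab => disjoint_left.1 hd ha (hab ▸ hb)
        rcases le_total b a with h7 | h7
        · exact disjoint_left.1 hd ((hP i s).out hs1 ha ⟨h5, h7⟩) hb
        · exact disjoint_left.1 hd ha ((hP i t).out hb' hb ⟨h6, h7⟩)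
    intro τ τ' hZZ
    funext i
    cases h1 : τ i
    · cases h2 : τ' i
      · rfl
      · exact absurd (key τ' τ hZZ.symm i h2 h1) not_false
    · cases h2 : τ' i
      · exact absurd (key τ τ' hZZ i h1 h2) not_false
      · rfl
  have h1 : (Finset.univ.image Z).card = 2 ^ k := by
    rw [Finset.card_image_of_injective _ hinj, Finset.card_univ, Fintype.card_fun, Fintype.card_bool, Fintype.card_fin]
  have h2 := laminar_card L (fun i j _ _ g2 g3 _ => by
    obtain ⟨a, ha1, ha2⟩ := g2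
    obtain ⟨b, hb1, hb2⟩ := g3
    rcases le_total a b with h | h
    · exact ha2 (hlow j h hb2)
    · exact hb1 (hlow i h ha1)) (Finset.univ.image Z) (fun u hu => by
      obtain ⟨τ, -, rfl⟩ := Finset.mem_image.1 hu
      refine ⟨x τ, ?_⟩
      ext p
      simp only [hZ, Finset.mem_filter, Finset.mem_univ, true_and])
  rw [h1] at h2
  simpa [Fintype.card_prod] using h2

open Classical in
/-- the two pieces of an arc -/
noncomputable def half {Z : Type} [LinearOrder Z] (P : Set Z) (b : Bool) : Set Z :=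
  if OrdConnected P then (if b then P else ∅) else
    (if b then {z | ∀ c ∉ P, z < c} else {z | ∀ c ∉ P, c < z})

theorem half_conn {Z : Type} [LinearOrder Z] (P : Set Z) (b : Bool) : OrdConnected (half P b) := by
  classical
  unfold half
  split_ifs with h1 h2 h3
  · exact h1
  · exact ordConnected_empty
  · exact ⟨fun a ha b hb z hz c hc => lt_of_le_of_lt hz.2 (hb c hc)⟩
  · exact ⟨fun a ha b hb z hz c hc => lt_of_lt_of_le (ha c hc) hz.1⟩

theorem half_sub {Z : Type} [LinearOrder Z] (P : Set Z) (b : Bool) : half P b ⊆ P := by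
  classical
  unfold half
  split_ifs with h1 h2 h3
  · exact subset_refl _
  · exact empty_subset _
  · intro z hz
    by_contra h
    exact lt_irrefl _ (hz z h)
  · intro z hz
    by_contra h
    exact lt_irrefl _ (hz z h)

theorem half_cover {Z : Type} [LinearOrder Z] {P : Set Z} (hP : Arc P) {z : Z} (hz : z ∈ P) : ∃ b, z ∈ half P b := by
  classical
  unfold half
  by_cases h1 : OrdConnected P
  · exact ⟨true, by simpa [h1] using hz⟩
  · have h2 : OrdConnected Pᶜ := hP.resolve_left h1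
    by_cases h3 : ∀ c ∉ P, z < c
    · exact ⟨true, by simpa [h1] using h3⟩
    · refine ⟨false, ?_⟩
      simp only [h1, if_false, Bool.false_eq_true]
      push Not at h3
      obtain ⟨c, hc, hcz⟩ := h3
      intro c' hc'
      by_contra h4
      rw [not_lt] at h4
      exact h2.out hc hc' ⟨hcz, h4⟩ hz

/-- **Patterns for arcs.** -/
theorem pattern_arcs {Z : Type} [LinearOrder Z] (n : ℕ) : ∃ d : ℕ,
    ∀ (P : Fin d → Fin n → Set Z), (∀ i s, Arc (P i s)) →
    ∀ (K : Fin d → Fin n → Bool → Prop), (∀ i s t, K i s true → K i t false → Disjoint (P i s) (P i t)) →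
    ∀ x : (Fin d → Bool) → Z, ¬ ∀ τ i, ∃ s, x τ ∈ P i s ∧ K i s (τ i) := by
  obtain ⟨d, hd⟩ : ∃ d : ℕ, 1 + d * (n * 2 * (n * 2)) < 2 ^ d := by
    have h1 : Filter.Tendsto (fun d : ℕ => ((d : ℝ) ^ 1 / (2 : ℝ) ^ d)) Filter.atTop (𝓝 0) :=
      tendsto_pow_const_div_const_pow_of_one_lt 1 (by norm_num)
    have h2 := h1.eventually_lt_const (show (0 : ℝ) < 1 / (1 + n * 2 * (n * 2)) by positivity)
    obtain ⟨d, hd1, hd2⟩ := (h2.and (Filter.eventually_ge_atTop 1)).exists
    refine ⟨d, ?_⟩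
    rw [pow_one, div_lt_div_iff₀ (by positivity) (by positivity), one_mul] at hd1
    have hd1' : d * (1 + n * 2 * (n * 2)) < 2 ^ d := by exact_mod_cast hd1
    nlinarith [hd1', hd2]
  refine ⟨d, fun P hP K hK x hx => ?_⟩
  have h1 := pattern_order (Q := Fin n × Bool) (fun i s => half (P i s.1) s.2) (fun i s => half_conn _ _)
    (fun i s b => K i s.1 b) (fun i s t hs ht => disjoint_left.2 fun z hz hz' =>
      disjoint_left.1 (hK i s.1 t.1 hs ht) (half_sub _ _ hz) (half_sub _ _ hz')) x (fun τ i => by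
      obtain ⟨s, hs1, hs2⟩ := hx τ i
      obtain ⟨b, hb⟩ := half_cover (hP i s) hs1
      exact ⟨(s, b), hb, hs2⟩)
  rw [Fintype.card_prod, Fintype.card_fin, Fintype.card_bool] at h1
  omega

/-- small arcs -/
theorem small_cover_arcs {Y Z : Type} [TopologicalSpace Y] [CompactSpace Y] [LinearOrder Z] [TopologicalSpace Z]
    [CompactSpace Z] (hb : ∀ z : Z, ∀ U ∈ 𝓝 z, ∃ C ∈ 𝓝 z, C ⊆ U ∧ Arc C) (g : C(Z × Y, ℝ)) {ε : ℝ}
    (hε : 0 < ε) : ∃ (n : ℕ) (C : Fin n → Set Z), (∀ s, Arc (C s)) ∧ (∀ z, ∃ s, z ∈ C s) ∧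
      ∀ s y, ∀ z ∈ C s, ∀ z' ∈ C s, |g (z, y) - g (z', y)| ≤ ε := by
  classical
  set G : C(Z, C(Y, ℝ)) := g.curry with hG
  have hGv : ∀ z y, G z y = g (z, y) := fun z y => rfl
  choose V hV1 hV2 hV3 using fun z => hb z (G ⁻¹' Metric.ball (G z) (ε / 2))
    ((Metric.isOpen_ball.preimage G.continuous).mem_nhds (Metric.mem_ball_self (by positivity)))
  obtain ⟨t, -, ht⟩ := isCompact_univ.elim_nhds_subcover V fun z _ => hV1 z
  refine ⟨t.card, fun s => V (t.equivFin.symm s : Z), fun s => hV3 _, fun z => ?_, fun s y z hz z' hz' => ?_⟩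
  · obtain ⟨p, hp1, hp2⟩ := mem_iUnion₂.1 (ht (mem_univ z))
    exact ⟨t.equivFin ⟨p, hp1⟩, by simpa using hp2⟩
  · have h1 : dist (G z) (G (t.equivFin.symm s : Z)) < ε / 2 := hV2 _ hz
    have h2 : dist (G z') (G (t.equivFin.symm s : Z)) < ε / 2 := hV2 _ hz'
    have h3 : dist (G z) (G z') ≤ ε := (dist_triangle_right _ _ (G (t.equivFin.symm s : Z))).trans (by linarith)
    have h4 := (ContinuousMap.dist_apply_le_dist y : dist (G z y) (G z' y) ≤ dist (G z) (G z'))
    rw [Real.dist_eq, hGv, hGv] at h4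
    linarith

/-- iterates on a fibre -/
theorem fibre_iter_arcs {Y Z : Type} [LinearOrder Z] {S : Y → Y} {f : Y → Z → Z}
    (hmon : ∀ y C, Arc C → Arc (f y ⁻¹' C)) (y : Y) (m : ℕ) :
    ∃ F : Z → Z, (∀ C, Arc C → Arc (F ⁻¹' C)) ∧
      ∀ z, (fun x : Y × Z => (S x.1, f x.1 x.2))^[m] (y, z) = (S^[m] y, F z) := by
  induction m with
  | zero => exact ⟨id, fun C hC => hC, fun z => rfl⟩
  | succ m ih =>
    obtain ⟨F, h2, h3⟩ := ih
    refine ⟨f (S^[m] y) ∘ F, fun C hC => ?_, fun z => ?_⟩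
    · rw [preimage_comp]
      exact h2 _ (hmon _ C hC)
    · rw [Function.iterate_succ_apply', h3, Function.iterate_succ_apply']
      rfl

/-- **Nullness.** -/
theorem null_arcs {Y Z : Type} [TopologicalSpace Y] [CompactSpace Y] [T2Space Y] [LinearOrder Z] [TopologicalSpace Z]
    [CompactSpace Z] [T2Space Z] (hb : ∀ z : Z, ∀ U ∈ 𝓝 z, ∃ C ∈ 𝓝 z, C ⊆ U ∧ Arc C) (S : Y → Y) (f : Y → Z → Z)
    (hmon : ∀ y C, Arc C → Arc (f y ⁻¹' C)) (A B : Set (Y × Z)) (hA : IsClosed A)
    (hB : IsClosed B) (hAB : Disjoint A B) : ∃ d : ℕ, ∀ (y : Y) (m : Fin d → ℕ), ∃ τ : Fin d → Bool,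
      ∀ x : Y × Z, x.1 = y → ∃ i, (fun x : Y × Z => (S x.1, f x.1 x.2))^[m i] x ∉ (if τ i then A else B) := by
  classical
  obtain ⟨g, hg0, hg1, -⟩ := exists_continuous_zero_one_of_isClosed hA hB hAB
  set g' : C(Z × Y, ℝ) := ⟨fun x => g (x.2, x.1), g.continuous.comp (continuous_snd.prodMk continuous_fst)⟩ with hg'
  obtain ⟨n, C, hC1, hC2, hC3⟩ := small_cover_arcs hb g' (show (0 : ℝ) < 1 / 3 by norm_num)
  obtain ⟨d, hd⟩ := pattern_arcs (Z := Z) n
  refine ⟨d, fun y m => ?_⟩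
  by_contra hcon
  push Not at hcon
  choose x hxy hx using hcon
  choose F hF2 hF3 using fun i => fibre_iter_arcs (S := S) hmon y (m i)
  refine hd (fun i s => F i ⁻¹' C s) (fun i s => hF2 i _ (hC1 s))
    (fun i s b => ∃ z ∈ C s, (S^[m i] y, z) ∈ (if b then A else B)) (fun i s t hs ht => ?_) (fun τ => (x τ).2)
    (fun τ i => ?_)
  · obtain ⟨z, hz, hzA⟩ := hs
    obtain ⟨w, hw, hwB⟩ := ht
    simp only [if_true, Bool.false_eq_true, if_false] at hzA hwB
    rw [disjoint_left]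
    intro p hp hp'
    have h1 := hC3 s (S^[m i] y) z hz _ hp
    have h2 := hC3 t (S^[m i] y) w hw _ hp'
    have h3 : g' (z, S^[m i] y) = 0 := hg0 hzA
    have h4 : g' (w, S^[m i] y) = 1 := hg1 hwB
    rw [h3] at h1
    rw [h4] at h2
    have h5 := (abs_le.1 h1).1
    have h6 := (abs_le.1 h2).2
    linarith
  · obtain ⟨s, hs⟩ := hC2 (F i (x τ).2)
    refine ⟨s, hs, F i (x τ).2, hs, ?_⟩
    have h1 := hx τ i
    have h2 : x τ = (y, (x τ).2) := Prod.ext (hxy τ) rfl
    rw [h2, hF3 i] at h1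
    exact h1

end Pool.Agent.Zk39.DN
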