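import Mathlib

/-!
# Disjoint pairs of connected sets in dendrites are laminar
-/

set_option autoImplicit false

open Set Topology

namespace Pool.Agent.Zk39.DN

/-- **Dendrites**: compact, connected, locally connected Hausdorff spaces in which the intersection of any two closed
connected sets is connected (hereditarily unicoherent). -/
def Dendrite (N : Type) [TopologicalSpace N] : Prop :=
  CompactSpace N ∧ T2Space N ∧ ConnectedSpace N ∧ LocallyConnectedSpace N ∧
    ∀ C D : Set N, IsClosed C → IsClosed D → IsPreconnected C → IsPreconnected D → IsPreconnected (C ∩ D)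

/-- **Local dendrites**: compact, locally connected Hausdorff spaces which are the union of finitely many closed sets which
are dendrites and have finite frontiers (for instance all dendrites and all finite graphs). -/
def LocalDendrite (Z : Type) [TopologicalSpace Z] : Prop :=
  CompactSpace Z ∧ T2Space Z ∧ LocallyConnectedSpace Z ∧ ∃ (m : ℕ) (N : Fin m → Set Z),
    (∀ j, IsClosed (N j) ∧ (frontier (N j)).Finite ∧ Dendrite (N j)) ∧ ⋃ j, N j = univ

/-- in a locally connected compact Hausdorff space two points of a connected open set lie in a closed connected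
subset of it -/
theorem join {Z : Type} [TopologicalSpace Z] [CompactSpace Z] [T2Space Z] [LocallyConnectedSpace Z] {U : Set Z}
    (hU : IsOpen U) (hc : IsPreconnected U) {p q : Z} (hp : p ∈ U) (hq : q ∈ U) :
    ∃ C : Set Z, IsClosed C ∧ IsPreconnected C ∧ C ⊆ U ∧ p ∈ C ∧ q ∈ C := by
  refine hc.induction₂ (fun x y => ∃ C : Set Z, IsClosed C ∧ IsPreconnected C ∧ C ⊆ U ∧ x ∈ C ∧ y ∈ C) ?_ ?_ ?_ hp hq
  · intro x hx
    obtain ⟨K, ⟨hK1, hK2⟩, hK3⟩ := (closed_nhds_basis x).mem_iff.1 (hU.mem_nhds hx)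
    have hV : IsOpen (connectedComponentIn (interior K) x) := isOpen_interior.connectedComponentIn
    have hxV : x ∈ connectedComponentIn (interior K) x := mem_connectedComponentIn (mem_interior_iff_mem_nhds.2 hK1)
    refine mem_nhdsWithin_of_mem_nhds (Filter.mem_of_superset (hV.mem_nhds hxV) fun y hy => ?_)
    refine ⟨closure (connectedComponentIn (interior K) x), isClosed_closure,
      isPreconnected_connectedComponentIn.closure, ?_, subset_closure hxV, subset_closure hy⟩
    exact (closure_minimal ((connectedComponentIn_subset _ _).trans interior_subset) hK2).trans hK3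
  · rintro x y z hx hy hz ⟨C, h1, h2, h3, h4, h5⟩ ⟨D, g1, g2, g3, g4, g5⟩
    exact ⟨C ∪ D, h1.union g1, h2.union y h5 g4 g2, union_subset h3 g3, Or.inl h4, Or.inr g5⟩
  · rintro x y hx hy ⟨C, h1, h2, h3, h4, h5⟩
    exact ⟨C, h1, h2, h3, h5, h4⟩

/-- four closed connected sets do not form a cycle -/
theorem cross {N : Type} [TopologicalSpace N]
    (hu : ∀ C D : Set N, IsClosed C → IsClosed D → IsPreconnected C → IsPreconnected D → IsPreconnected (C ∩ D))
    {A1 B1 A2 B2 : Set N} (a1 : IsClosed A1) (b1 : IsClosed B1) (a2 : IsClosed A2) (b2 : IsClosed B2)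
    (c1 : IsPreconnected A1) (e1 : IsPreconnected B1) (c2 : IsPreconnected A2) (e2 : IsPreconnected B2)
    (d1 : Disjoint A1 B1) (d2 : Disjoint A2 B2) (h11 : (A1 ∩ A2).Nonempty) (h10 : (A1 ∩ B2).Nonempty)
    (h01 : (B1 ∩ A2).Nonempty) (h00 : (B1 ∩ B2).Nonempty) : False := by
  obtain ⟨p, hp1, hp2⟩ := h11
  obtain ⟨q, hq1, hq2⟩ := h01
  have h1 : IsPreconnected (A1 ∪ A2) := c1.union p hp1 hp2 c2
  have h2 : IsPreconnected (A1 ∪ A2 ∪ B1) := h1.union q (Or.inr hq2) hq1 e1
  have h3 := hu _ _ ((a1.union a2).union b1) b2 h2 e2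
  rw [isPreconnected_closed_iff] at h3
  obtain ⟨z, hz1, hz2, hz3⟩ := h3 A1 B1 a1 b1 (by
    rintro z ⟨(hz | hz) | hz, hz'⟩
    · exact Or.inl hz
    · exact absurd hz' (disjoint_left.1 d2 hz)
    · exact Or.inr hz) (by
    obtain ⟨z, h4, h5⟩ := h10
    exact ⟨z, ⟨Or.inl (Or.inl h4), h5⟩, h4⟩) (by
    obtain ⟨z, h4, h5⟩ := h00
    exact ⟨z, ⟨Or.inr h4, h5⟩, h4⟩)
  exact disjoint_left.1 d1 hz2 hz3

/-- the complement of a complementary component of a closed connected set is connected -/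
theorem compl_component {N : Type} [TopologicalSpace N] [PreconnectedSpace N] [LocallyConnectedSpace N] {A : Set N}
    (hA : IsClosed A) (hAc : IsPreconnected A) (hAn : A.Nonempty) (b : N) :
    IsPreconnected (connectedComponentIn Aᶜ b)ᶜ := by
  obtain ⟨a, ha⟩ := hAn
  have hU : IsOpen (connectedComponentIn Aᶜ b) := hA.isOpen_compl.connectedComponentIn
  have hAU : A ⊆ (connectedComponentIn Aᶜ b)ᶜ := fun z hz hz' => connectedComponentIn_subset _ _ hz' hz
  refine isPreconnected_of_forall a fun x hx => ?_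
  by_cases hxA : x ∈ A
  · exact ⟨A, hAU, ha, hxA, hAc⟩
  · have hxW : x ∈ connectedComponentIn Aᶜ x := mem_connectedComponentIn hxA
    have hW : IsOpen (connectedComponentIn Aᶜ x) := hA.isOpen_compl.connectedComponentIn
    have hmeet : (closure (connectedComponentIn Aᶜ x) ∩ A).Nonempty := by
      by_contra hcon
      rw [not_nonempty_iff_eq_empty] at hcon
      have h1 : closure (connectedComponentIn Aᶜ x) ⊆ Aᶜ := fun z hz hz' => by
        have : z ∈ closure (connectedComponentIn Aᶜ x) ∩ A := ⟨hz, hz'⟩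
        rw [hcon] at this
        exact this
      have h2 : closure (connectedComponentIn Aᶜ x) ⊆ connectedComponentIn Aᶜ x :=
        isPreconnected_connectedComponentIn.closure.subset_connectedComponentIn (subset_closure hxW) h1
      have h3 : IsClopen (connectedComponentIn Aᶜ x) := ⟨closure_subset_iff_isClosed.1 h2, hW⟩
      have h4 := h3.eq_univ ⟨x, hxW⟩
      have h5 : a ∈ connectedComponentIn Aᶜ x := by rw [h4]; exact mem_univ a
      exact connectedComponentIn_subset _ _ h5 ha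
    obtain ⟨z, hz1, hz2⟩ := hmeet
    refine ⟨A ∪ closure (connectedComponentIn Aᶜ x), union_subset hAU ?_, Or.inl ha, Or.inr (subset_closure hxW),
      hAc.union z hz2 hz1 isPreconnected_connectedComponentIn.closure⟩
    have hdis : connectedComponentIn Aᶜ x ⊆ (connectedComponentIn Aᶜ b)ᶜ := by
      intro y hy hy'
      have h1 := connectedComponentIn_eq hy
      have h2 := connectedComponentIn_eq hy'
      apply hx
      rw [h2, ← h1]
      exact hxW
    exact closure_minimal hdis hU.isClosed_compl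

/-- two splits do not cross -/
theorem splits_cross {N : Type} [TopologicalSpace N] (hN : Dendrite N) {A1 A2 : Set N} {b1 b2 : N}
    (a1 : IsClosed A1) (a2 : IsClosed A2) (c1 : IsPreconnected A1) (c2 : IsPreconnected A2) (n1 : A1.Nonempty)
    (n2 : A2.Nonempty)
    (h11 : ∃ z, z ∈ connectedComponentIn A1ᶜ b1 ∧ z ∈ connectedComponentIn A2ᶜ b2)
    (h10 : ∃ z, z ∈ connectedComponentIn A1ᶜ b1 ∧ z ∉ connectedComponentIn A2ᶜ b2)
    (h01 : ∃ z, z ∉ connectedComponentIn A1ᶜ b1 ∧ z ∈ connectedComponentIn A2ᶜ b2)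
    (h00 : ∃ z, z ∉ connectedComponentIn A1ᶜ b1 ∧ z ∉ connectedComponentIn A2ᶜ b2) : False := by
  obtain ⟨i1, i2, i3, i4, hu⟩ := hN
  have u1 : IsOpen (connectedComponentIn A1ᶜ b1) := a1.isOpen_compl.connectedComponentIn
  have u2 : IsOpen (connectedComponentIn A2ᶜ b2) := a2.isOpen_compl.connectedComponentIn
  obtain ⟨p, hp1, hp2⟩ := h11
  obtain ⟨q, hq1, hq2⟩ := h10
  obtain ⟨r, hr1, hr2⟩ := h01
  obtain ⟨t, ht1, ht2⟩ := h00
  obtain ⟨C1, g1, g2, g3, g4, g5⟩ := join u1 isPreconnected_connectedComponentIn hp1 hq1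
  obtain ⟨C2, k1, k2, k3, k4, k5⟩ := join u2 isPreconnected_connectedComponentIn hp2 hr2
  refine cross hu u1.isClosed_compl g1 u2.isClosed_compl k1 (compl_component a1 c1 n1 b1) g2
    (compl_component a2 c2 n2 b2) k2 (disjoint_left.2 fun z hz hz' => hz (g3 hz'))
    (disjoint_left.2 fun z hz hz' => hz (k3 hz')) ⟨t, ht1, ht2⟩ ⟨r, hr1, k5⟩ ⟨q, g5, hq2⟩ ⟨p, g4, k4⟩

open Classical in
/-- laminar families separate few classes of points -/
theorem laminar_card {I Ω : Type} [DecidableEq I] [Fintype I] (L : Ω → I → Prop)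
    (h : ∀ i j, i ≠ j → (∃ ω, L ω i ∧ L ω j) → (∃ ω, L ω i ∧ ¬ L ω j) → (∃ ω, ¬ L ω i ∧ L ω j) →
      (∃ ω, ¬ L ω i ∧ ¬ L ω j) → False)
    (𝒜 : Finset (Finset I)) (h𝒜 : ∀ u ∈ 𝒜, ∃ ω, u = Finset.univ.filter fun p => L ω p) :
    𝒜.card ≤ 1 + Fintype.card I := by
  refine 𝒜.card_le_card_shatterer.trans ?_
  have hsub : 𝒜.shatterer ⊆ insert ∅ (Finset.univ.image fun i : I => ({i} : Finset I)) := by
    intro s hs
    rw [Finset.mem_shatterer] at hs
    rw [Finset.mem_insert, Finset.mem_image]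
    by_cases hs0 : s = ∅
    · exact Or.inl hs0
    · obtain ⟨i, hi⟩ := Finset.nonempty_iff_ne_empty.2 hs0
      refine Or.inr ⟨i, Finset.mem_univ _, ?_⟩
      symm
      rw [Finset.eq_singleton_iff_unique_mem]
      refine ⟨hi, fun j hj => ?_⟩
      by_contra hij
      have key : ∀ t : Finset I, t ⊆ s → ∃ ω, (∀ p ∈ s, L ω p ↔ p ∈ t) := by
        intro t ht
        obtain ⟨u, hu, hut⟩ := hs ht
        obtain ⟨ω, hω⟩ := h𝒜 u hu
        refine ⟨ω, fun p hp => ?_⟩
        rw [← hut, Finset.mem_inter, hω, Finset.mem_filter]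
        simp [hp]
      obtain ⟨ω1, h1⟩ := key s (Finset.Subset.refl s)
      obtain ⟨ω2, h2⟩ := key {j} (by simpa using hj)
      obtain ⟨ω3, h3⟩ := key {i} (by simpa using hi)
      obtain ⟨ω4, h4⟩ := key ∅ (Finset.empty_subset s)
      refine h j i hij ⟨ω1, (h1 j hj).2 hj, (h1 i hi).2 hi⟩ ⟨ω2, (h2 j hj).2 (Finset.mem_singleton_self j), fun hc => ?_⟩
        ⟨ω3, fun hc => ?_, (h3 i hi).2 (Finset.mem_singleton_self i)⟩ ⟨ω4, fun hc => ?_, fun hc => ?_⟩
      · exact hij (Finset.mem_singleton.1 ((h2 i hi).1 hc)).symm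
      · exact hij (Finset.mem_singleton.1 ((h3 j hj).1 hc))
      · exact absurd ((h4 j hj).1 hc) (Finset.notMem_empty j)
      · exact absurd ((h4 i hi).1 hc) (Finset.notMem_empty i)
  refine (Finset.card_le_card hsub).trans ?_
  refine (Finset.card_insert_le _ _).trans ?_
  have := Finset.card_image_le (s := (Finset.univ : Finset I)) (f := fun i : I => ({i} : Finset I))
  rw [Finset.card_univ] at this
  omega

open Classical in
/-- **Patterns in a dendrite.** -/
theorem pattern_dendrite {N Q : Type} [TopologicalSpace N] [Fintype Q] (hN : Dendrite N) {k : ℕ}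
    (P : Fin k → Q → Set N) (hP1 : ∀ i s, IsClosed (P i s)) (hP2 : ∀ i s, IsPreconnected (P i s))
    (K : Fin k → Q → Bool → Prop) (hK : ∀ i s t, K i s true → K i t false → Disjoint (P i s) (P i t))
    (𝒯 : Finset (Fin k → Bool)) (x : (Fin k → Bool) → N)
    (hx : ∀ τ ∈ 𝒯, ∀ i, ∃ s, x τ ∈ P i s ∧ K i s (τ i)) : 𝒯.card ≤ 1 + k * (Fintype.card Q * Fintype.card Q) := by
  obtain ⟨i1, i2, i3, i4, hu⟩ := id hN
  have hne : Nonempty N := i3.toNonempty
  set b : Fin k → Q → N := fun i s => if h : (P i s).Nonempty then h.choose else hne.some with hb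
  have hbP : ∀ i s, (P i s).Nonempty → b i s ∈ P i s := by
    intro i s h
    rw [hb]
    simp only
    rw [dif_pos h]
    exact h.choose_spec
  set L : N → Fin k × Q × Q → Prop := fun z p => (K p.1 p.2.1 true ∧ K p.1 p.2.2 false ∧ (P p.1 p.2.1).Nonempty ∧
    (P p.1 p.2.2).Nonempty) ∧ z ∈ connectedComponentIn (P p.1 p.2.1)ᶜ (b p.1 p.2.2) with hL
  set Z : (Fin k → Bool) → Finset (Fin k × Q × Q) := fun τ => Finset.univ.filter fun p => L (x τ) p with hZ
  have hinj : Set.InjOn Z 𝒯 := by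
    have key : ∀ τ ∈ 𝒯, ∀ τ' ∈ 𝒯, Z τ = Z τ' → ∀ i, τ i = true → τ' i = false → False := by
      intro τ hτ τ' hτ' hZZ i h1 h2
      obtain ⟨s, hs1, hs2⟩ := hx τ hτ i
      obtain ⟨t, ht1, ht2⟩ := hx τ' hτ' i
      rw [h1] at hs2
      rw [h2] at ht2
      have hd := hK i s t hs2 ht2
      have hb1 := hbP i t ⟨_, ht1⟩
      have h3 : x τ' ∈ connectedComponentIn (P i s)ᶜ (b i t) :=
        (hP2 i t).subset_connectedComponentIn hb1 (fun z hz hz' => disjoint_left.1 hd hz' hz) ht1
      have h4 : (i, s, t) ∈ Z τ' := Finset.mem_filter.2 ⟨Finset.mem_univ _, ⟨hs2, ht2, ⟨_, hs1⟩, ⟨_, ht1⟩⟩, h3⟩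
      rw [← hZZ] at h4
      have h5 := (Finset.mem_filter.1 h4).2.2
      exact connectedComponentIn_subset _ _ h5 hs1
    intro τ hτ τ' hτ' hZZ
    funext i
    cases h1 : τ i
    · cases h2 : τ' i
      · rfl
      · exact absurd (key τ' hτ' τ hτ hZZ.symm i h2 h1) not_false
    · cases h2 : τ' i
      · exact absurd (key τ hτ τ' hτ' hZZ i h1 h2) not_false
      · rfl
  have h1 : (𝒯.image Z).card = 𝒯.card := Finset.card_image_of_injOn hinj
  have h2 := laminar_card L (fun i j hij g1 g2 g3 g4 => by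
    by_cases hi : (K i.1 i.2.1 true ∧ K i.1 i.2.2 false ∧ (P i.1 i.2.1).Nonempty ∧ (P i.1 i.2.2).Nonempty)
    · by_cases hj : (K j.1 j.2.1 true ∧ K j.1 j.2.2 false ∧ (P j.1 j.2.1).Nonempty ∧ (P j.1 j.2.2).Nonempty)
      · simp only [hL, hi, hj, true_and] at g1 g2 g3 g4
        exact splits_cross hN (hP1 _ _) (hP1 _ _) (hP2 _ _) (hP2 _ _) hi.2.2.1 hj.2.2.1 (by simpa using g1)
          (by simpa [hi, hj] using g2) (by simpa [hi, hj] using g3) (by simpa [hi, hj] using g4)
      · obtain ⟨ω, -, h3⟩ := g1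
        exact hj h3.1
    · obtain ⟨ω, h3, -⟩ := g1
      exact hi h3.1) (𝒯.image Z) (fun u hu => by
      obtain ⟨τ, -, rfl⟩ := Finset.mem_image.1 hu
      refine ⟨x τ, ?_⟩
      ext p
      simp only [hZ, Finset.mem_filter, Finset.mem_univ, true_and])
  rw [h1] at h2
  simpa [Fintype.card_prod] using h2

end Pool.Agent.Zk39.DN
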